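import Pool.Agent.Y73.SL.Core

set_option autoImplicit false

namespace Pool.Agent.Y73.SL

universe u v w

open AddSubgroup

/-- the subgroup lattice of `A` embeds into the subspace lattice of the `D`-space `V` -/
def Emb (A : Type u) [AddCommGroup A] (D : Type v) [DivisionRing D] (V : Type w)
    [AddCommGroup V] [Module D V] : Prop :=
  ∃ f : AddSubgroup A → Submodule D V, Function.Injective f ∧
    (∀ H K, f (H ⊓ K) = f H ⊓ f K) ∧ (∀ H K, f (H ⊔ K) = f H ⊔ f K)

section
variable {B : Type u} [AddCommGroup B] {D : Type v} [DivisionRing D] {V : Type w}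
  [AddCommGroup V] [Module D V]

/-- the image of the zero subgroup may be taken to be zero -/
theorem Emb.normalize {A : Type u} [AddCommGroup A] (h : Emb A D V) :
    ∃ (V' : Type w) (_ : AddCommGroup V') (_ : Module D V') (f : AddSubgroup A → Submodule D V'),
      Function.Injective f ∧ (∀ H K, f (H ⊓ K) = f H ⊓ f K) ∧ (∀ H K, f (H ⊔ K) = f H ⊔ f K) ∧
      f ⊥ = ⊥ := by
  obtain ⟨f, hf, hinf, hsup⟩ := h
  have hbot : ∀ H, f ⊥ ≤ f H := by
    intro H
    have := hinf ⊥ H
    rw [bot_inf_eq] at this
    rw [this]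
    exact inf_le_right
  refine ⟨V ⧸ f ⊥, inferInstance, inferInstance, fun H => (f H).map (f ⊥).mkQ, ?_, ?_, ?_, ?_⟩
  · intro H K hHK
    apply hf
    have h1 := congrArg (Submodule.comap (f ⊥).mkQ) hHK
    simp only [Submodule.comap_map_mkQ] at h1
    rw [sup_eq_right.2 (hbot H), sup_eq_right.2 (hbot K)] at h1
    exact h1
  · intro H K
    apply Submodule.comap_injective_of_surjective (Submodule.mkQ_surjective _)
    rw [Submodule.comap_inf, Submodule.comap_map_mkQ, Submodule.comap_map_mkQ,
      Submodule.comap_map_mkQ, sup_eq_right.2 (hbot _), sup_eq_right.2 (hbot _),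
      sup_eq_right.2 (hbot _), hinf]
  · intro H K
    show (f (H ⊔ K)).map _ = _
    rw [hsup, Submodule.map_sup]
  · show (f ⊥).map _ = ⊥
    rw [Submodule.mkQ_map_self]

theorem Emb.ann (h : Emb (B × B × B) D V) (x : B) (hx : x ≠ 0) (k : ℕ) :
    k • x = 0 ↔ (k : D) = 0 := by
  obtain ⟨V', _, _, f, hf, hinf, hsup, hbot⟩ := h.normalize
  exact core f hf hinf hsup hbot x hx k

/-- passing to a section -/
theorem Emb.section' (h : Emb (B × B × B) D V) (x : B) (hx : ∀ k : ℕ, k • x = 0 → k = 0) (n : ℕ) :
    Emb (ZMod n × ZMod n × ZMod n) D V := by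
  obtain ⟨f, hf, hinf, hsup⟩ := h
  let π : ℤ × ℤ × ℤ →+ ZMod n × ZMod n × ZMod n :=
    (Int.castAddHom (ZMod n)).prodMap ((Int.castAddHom (ZMod n)).prodMap (Int.castAddHom (ZMod n)))
  have hπ : Function.Surjective π := by
    rintro ⟨a, b, c⟩
    obtain ⟨a, rfl⟩ := ZMod.intCast_surjective a
    obtain ⟨b, rfl⟩ := ZMod.intCast_surjective b
    obtain ⟨c, rfl⟩ := ZMod.intCast_surjective c
    exact ⟨(a, b, c), rfl⟩
  let t : ℤ →+ B := (zmultiplesHom B) x
  have ht : Function.Injective t := by
    rw [injective_iff_map_eq_zero]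
    intro m hm
    have hm' : m • x = 0 := hm
    have h1 : m.natAbs • x = 0 := by
      rcases Int.natAbs_eq m with h | h
      · rw [← natCast_zsmul, ← h, hm']
      · have : (m.natAbs : ℤ) = -m := by omega
        rw [← natCast_zsmul, this, neg_smul, hm', neg_zero]
    exact Int.natAbs_eq_zero.1 (hx _ h1)
  let τ : ℤ × ℤ × ℤ →+ B × B × B := t.prodMap (t.prodMap t)
  have hτ : Function.Injective τ := by
    rintro ⟨a, b, c⟩ ⟨a', b', c'⟩ h
    have h1 := congrArg Prod.fst h
    have h2 := congrArg (fun z => z.2.1) h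
    have h3 := congrArg (fun z => z.2.2) h
    have h1' := ht h1
    have h2' := ht h2
    have h3' := ht h3
    exact Prod.ext h1' (Prod.ext h2' h3')
  refine ⟨fun H => f ((H.comap π).map τ), ?_, ?_, ?_⟩
  · intro H K hHK
    exact AddSubgroup.comap_injective hπ (AddSubgroup.map_injective hτ (hf hHK))
  · intro H K
    show f _ = f _ ⊓ f _
    rw [AddSubgroup.comap_inf, AddSubgroup.map_inf _ _ _ hτ, hinf]
  · intro H K
    show f _ = f _ ⊔ f _
    rw [← hsup, ← AddSubgroup.map_sup]
    congr 2
    apply AddSubgroup.map_injective_of_ker_le π (by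
      intro z hz
      rw [AddSubgroup.mem_comap, (AddMonoidHom.mem_ker).1 hz]
      exact zero_mem _) (by
      intro z hz
      refine AddSubgroup.mem_sup_left ?_
      rw [AddSubgroup.mem_comap, (AddMonoidHom.mem_ker).1 hz]
      exact zero_mem _)
    rw [AddSubgroup.map_sup, AddSubgroup.map_comap_eq_self_of_surjective hπ,
      AddSubgroup.map_comap_eq_self_of_surjective hπ,
      AddSubgroup.map_comap_eq_self_of_surjective hπ]

/-- a cube whose subgroup lattice embeds has prime exponent -/
theorem Emb.prime (h : Emb (B × B × B) D V) : ∃ p : ℕ, p.Prime ∧ ∀ b : B, p • b = 0 := by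
  obtain ⟨c, hc⟩ := CharP.exists D
  by_cases hc0 : c = 0
  · subst hc0
    by_cases hB : ∀ b : B, b = 0
    · exact ⟨2, Nat.prime_two, fun b => by rw [hB b, smul_zero]⟩
    · push Not at hB
      obtain ⟨x, hx⟩ := hB
      exfalso
      have h1 : ∀ k : ℕ, k • x = 0 → k = 0 := by
        intro k hk
        have := (h.ann x hx k).1 hk
        rw [CharP.cast_eq_zero_iff D 0 k] at this
        exact zero_dvd_iff.1 this
      have h2 := h.section' x h1 2
      have h3 := (h2.ann (1 : ZMod 2) one_ne_zero 2).1 (by decide)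
      rw [CharP.cast_eq_zero_iff D 0 2] at h3
      have := zero_dvd_iff.1 h3
      omega
  · have hp : c.Prime := (CharP.char_is_prime_or_zero D c).resolve_right hc0
    refine ⟨c, hp, fun b => ?_⟩
    by_cases hb : b = 0
    · rw [hb, smul_zero]
    · exact (h.ann b hb c).2 (CharP.cast_eq_zero D c)

end

/-- elementary abelian groups embed -/
theorem exists_emb (A : Type u) [AddCommGroup A] (p : ℕ) (hp : p.Prime) (h : ∀ a : A, p • a = 0) :
    ∃ (D : Type v) (_ : DivisionRing D) (V : Type (max u w)) (_ : AddCommGroup V)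
      (_ : Module D V), Emb A D V := by
  have : Fact p.Prime := ⟨hp⟩
  let _ : Module (ZMod p) A := AddCommGroup.zmodModule h
  refine ⟨ULift.{v} (ZMod p), inferInstance, ULift.{w} A, inferInstance, inferInstance, ?_⟩
  let f : AddSubgroup A → Submodule (ULift.{v} (ZMod p)) (ULift.{w} A) := fun H =>
    { carrier := {a | a.down ∈ H}
      add_mem' := fun ha hb => H.add_mem ha hb
      zero_mem' := H.zero_mem
      smul_mem' := fun c a ha => by
        show (c • a).down ∈ H
        have : (c • a).down = c.down • a.down := rfl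
        rw [this]
        exact ZMod.smul_mem ha c.down }
  have hle : ∀ H K, f H ≤ f K ↔ H ≤ K := fun H K =>
    ⟨fun h a ha => h (show (ULift.up a) ∈ f H from ha), fun h a ha => h ha⟩
  have hsurj : Function.Surjective f := by
    intro K
    refine ⟨{ carrier := {a | ULift.up a ∈ K}
              add_mem' := fun ha hb => K.add_mem ha hb
              zero_mem' := K.zero_mem
              neg_mem' := fun ha => K.neg_mem ha }, ?_⟩
    ext a
    rfl
  have hinj : Function.Injective f := fun H K hHK =>
    le_antisymm ((hle _ _).1 hHK.le) ((hle _ _).1 hHK.ge)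
  let e : AddSubgroup A ≃o Submodule (ULift.{v} (ZMod p)) (ULift.{w} A) :=
    { toEquiv := Equiv.ofBijective f ⟨hinj, hsurj⟩
      map_rel_iff' := fun {H K} => hle H K }
  exact ⟨e, e.injective, fun H K => e.map_inf H K, fun H K => e.map_sup H K⟩

end Pool.Agent.Y73.SL
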