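import Mathlib

set_option autoImplicit false

namespace Pool.Agent.Y73.SL

universe u v w

section core
variable {B : Type u} [AddCommGroup B] {D : Type v} [DivisionRing D] {V : Type w}
  [AddCommGroup V] [Module D V]

open AddSubgroup

/-- the cyclic subgroup generated by `(a x, b x, c x)` -/
def cy (x : B) (a b c : ℤ) : AddSubgroup (B × B × B) := zmultiples (a • x, b • x, c • x)

theorem mem_cy {x : B} {a b c : ℤ} {z : B × B × B} :
    z ∈ cy x a b c ↔ ∃ m : ℤ, (m * a) • x = z.1 ∧ (m * b) • x = z.2.1 ∧ (m * c) • x = z.2.2 := by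
  unfold cy
  rw [mem_zmultiples_iff]
  constructor
  · rintro ⟨m, rfl⟩
    exact ⟨m, by simp [mul_smul], by simp [mul_smul], by simp [mul_smul]⟩
  · rintro ⟨m, h1, h2, h3⟩
    refine ⟨m, ?_⟩
    ext
    · simpa [mul_smul] using h1
    · simpa [mul_smul] using h2
    · simpa [mul_smul] using h3

theorem step_le (x : B) (k : ℕ) :
    (((cy x 1 k 0 ⊔ cy x 0 0 1) ⊓ (cy x 1 0 1 ⊔ cy x 0 1 0)) ⊔
      ((cy x 1 0 1 ⊔ cy x 1 1 0) ⊓ (cy x 0 0 1 ⊔ cy x 0 1 0))) ⊓ (cy x 1 0 0 ⊔ cy x 0 1 0) ≤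
      cy x 1 (k + 1 : ℕ) 0 := by
  intro z hz
  rw [mem_inf] at hz
  obtain ⟨hz1, hz2⟩ := hz
  obtain ⟨t, ht, s, hs, rfl⟩ := mem_sup.1 hz1
  rw [mem_inf] at ht hs
  obtain ⟨ht1, ht2⟩ := ht
  obtain ⟨hs1, hs2⟩ := hs
  obtain ⟨t1, h1, t2, h2, et⟩ := mem_sup.1 ht1
  obtain ⟨t3, h3, t4, h4, et'⟩ := mem_sup.1 ht2
  obtain ⟨s1, h5, s2, h6, es⟩ := mem_sup.1 hs1
  obtain ⟨s3, h7, s4, h8, es'⟩ := mem_sup.1 hs2
  obtain ⟨z1, h9, z2, h10, ez⟩ := mem_sup.1 hz2
  obtain ⟨m1, a1, a2, a3⟩ := mem_cy.1 h1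
  obtain ⟨m2, b1, b2, b3⟩ := mem_cy.1 h2
  obtain ⟨m3, c1, c2, c3⟩ := mem_cy.1 h3
  obtain ⟨m4, d1, d2, d3⟩ := mem_cy.1 h4
  obtain ⟨m5, e1, e2, e3⟩ := mem_cy.1 h5
  obtain ⟨m6, f1, f2, f3⟩ := mem_cy.1 h6
  obtain ⟨m7, g1, g2, g3⟩ := mem_cy.1 h7
  obtain ⟨m8, i1, i2, i3⟩ := mem_cy.1 h8
  obtain ⟨m9, j1, j2, j3⟩ := mem_cy.1 h9
  obtain ⟨m10, l1, l2, l3⟩ := mem_cy.1 h10
  simp only [mul_one, mul_zero, zero_smul] at *
  -- coordinates
  have T1 : t.1 = m1 • x := by rw [← et]; simp [← a1, ← b1]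
  have T2 : t.2.1 = (m1 * k) • x := by rw [← et]; simp [← a2, ← b2]
  have T3 : t.2.2 = m2 • x := by rw [← et]; simp [← a3, ← b3]
  have T1' : t.1 = m3 • x := by rw [← et']; simp [← c1, ← d1]
  have T3' : t.2.2 = m3 • x := by rw [← et']; simp [← c3, ← d3]
  have S1 : s.1 = m5 • x + m6 • x := by rw [← es]; simp [← e1, ← f1]
  have S2 : s.2.1 = m6 • x := by rw [← es]; simp [← e2, ← f2]
  have S3 : s.2.2 = m5 • x := by rw [← es]; simp [← e3, ← f3]
  have S1' : s.1 = 0 := by rw [← es']; simp [← g1, ← i1]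
  have Z3 : (t + s).2.2 = 0 := by rw [← ez]; simp [← j3, ← l3]
  have Z3' : t.2.2 + s.2.2 = 0 := Z3
  rw [mem_cy]
  refine ⟨m1, ?_, ?_, ?_⟩
  · show _ = t.1 + s.1
    rw [T1, S1', add_zero, mul_one]
  · show _ = t.2.1 + s.2.1
    have h11 : m5 • x = -(m6 • x) := by
      rw [S1'] at S1
      exact eq_neg_of_add_eq_zero_left S1.symm
    have h12 : m6 • x = m1 • x := by
      rw [T3', S3, h11] at Z3'
      rw [← T1, T1']
      exact (add_neg_eq_zero.1 Z3').symm
    rw [T2, S2, h12, ← add_smul]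
    congr 1
    push_cast
    ring
  · show _ = (t + s).2.2
    rw [Z3, mul_zero, zero_smul]

/-- In an embedding of the subgroup lattice of `B³` the integers annihilating a non-zero element
of `B` are those annihilating the division ring. -/
theorem core (f : AddSubgroup (B × B × B) → Submodule D V) (hf : Function.Injective f)
    (hinf : ∀ H K, f (H ⊓ K) = f H ⊓ f K) (hsup : ∀ H K, f (H ⊔ K) = f H ⊔ f K)
    (hbot : f ⊥ = ⊥) (x : B) (hx : x ≠ 0) (k : ℕ) : k • x = 0 ↔ (k : D) = 0 := by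
  have hle : ∀ H K : AddSubgroup (B × B × B), H ≤ K ↔ f H ≤ f K := by
    intro H K
    rw [← inf_eq_left, ← inf_eq_left, ← hinf]
    exact hf.eq_iff.symm
  -- non-zero vector in the first line
  have hne : f (cy x 1 0 0) ≠ ⊥ := by
    rw [← hbot]
    intro h
    have := hf h
    rw [AddSubgroup.eq_bot_iff_forall] at this
    have h2 := this (x, 0, 0) (mem_cy.2 ⟨1, by simp⟩)
    exact hx (congrArg Prod.fst h2)
  obtain ⟨v, hv, hv0⟩ := Submodule.exists_mem_ne_zero_of_ne_bot hne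
  have key : ∀ v ∈ f (cy x 1 0 0), ∃ w ∈ f (cy x 0 1 0), v + w ∈ f (cy x 1 1 0) ∧
      ∀ n : ℕ, v + n • w ∈ f (cy x 1 n 0) := by
    intro v hv
    have h1 : cy x 1 0 0 ≤ cy x 1 1 0 ⊔ cy x 0 1 0 := by
      intro z hz
      obtain ⟨m, h1, h2, h3⟩ := mem_cy.1 hz
      refine mem_sup.2 ⟨(m • x, m • x, 0), mem_cy.2 ⟨m, by simp⟩, (0, (-m) • x, 0),
        mem_cy.2 ⟨-m, by simp⟩, ?_⟩
      ext
      · simpa using h1
      · simpa using h2
      · simpa using h3
    have h2 : cy x 1 0 0 ≤ cy x 1 0 1 ⊔ cy x 0 0 1 := by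
      intro z hz
      obtain ⟨m, h1, h2, h3⟩ := mem_cy.1 hz
      refine mem_sup.2 ⟨(m • x, 0, m • x), mem_cy.2 ⟨m, by simp⟩, (0, 0, (-m) • x),
        mem_cy.2 ⟨-m, by simp⟩, ?_⟩
      ext
      · simpa using h1
      · simpa using h2
      · simpa using h3
    have h1' := (hle _ _).1 h1
    have h2' := (hle _ _).1 h2
    rw [hsup] at h1' h2'
    obtain ⟨g, hg, w', hw', e1⟩ := Submodule.mem_sup.1 (h1' hv)
    obtain ⟨g2, hg2, t', ht', e2⟩ := Submodule.mem_sup.1 (h2' hv)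
    refine ⟨-w', Submodule.neg_mem _ hw', ?_, ?_⟩
    · rw [← e1]; simpa using hg
    · intro n
      induction n with
      | zero => simpa using hv
      | succ n ih =>
        have hs := (hle _ _).1 (step_le x n)
        rw [hinf, hsup, hinf, hinf, hsup, hsup, hsup, hsup, hsup] at hs
        apply hs
        refine Submodule.mem_inf.2 ⟨?_, ?_⟩
        · have e3 : v + (n + 1) • (-w') = (v + n • (-w') + (-t')) + (-((-t') - (-w'))) := by
            rw [add_smul, one_smul]; abel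
          rw [e3]
          refine Submodule.add_mem_sup (Submodule.mem_inf.2 ⟨?_, ?_⟩)
            (Submodule.neg_mem _ (Submodule.mem_inf.2 ⟨?_, ?_⟩))
          · exact Submodule.add_mem_sup ih (Submodule.neg_mem _ ht')
          · have e4 : v + n • (-w') + (-t') = (v + (-t')) + n • (-w') := by abel
            rw [e4]
            refine Submodule.add_mem_sup ?_ (nsmul_mem (Submodule.neg_mem _ hw') _)
            rw [← e2]; simpa using hg2
          · have e5 : (-t') - (-w') = (v + (-t')) - (v + (-w')) := by abel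
            rw [e5]
            refine Submodule.sub_mem _ (Submodule.mem_sup_left ?_) (Submodule.mem_sup_right ?_)
            · rw [← e2]; simpa using hg2
            · rw [← e1]; simpa using hg
          · exact Submodule.sub_mem _ (Submodule.mem_sup_left (Submodule.neg_mem _ ht'))
              (Submodule.mem_sup_right (Submodule.neg_mem _ hw'))
        · exact Submodule.add_mem_sup hv (nsmul_mem (Submodule.neg_mem _ hw') _)
  have h12 : f (cy x 1 0 0) ⊓ f (cy x 0 1 0) = ⊥ := by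
    rw [← hinf, ← hbot]
    congr 1
    rw [AddSubgroup.eq_bot_iff_forall]
    intro z hz
    rw [mem_inf] at hz
    obtain ⟨m, a1, a2, a3⟩ := mem_cy.1 hz.1
    obtain ⟨n, b1, b2, b3⟩ := mem_cy.1 hz.2
    ext
    · simpa using b1.symm
    · simpa using a2.symm
    · simpa using a3.symm
  have h1g : f (cy x 1 0 0) ⊓ f (cy x 1 1 0) = ⊥ := by
    rw [← hinf, ← hbot]
    congr 1
    rw [AddSubgroup.eq_bot_iff_forall]
    intro z hz
    rw [mem_inf] at hz
    obtain ⟨m, a1, a2, a3⟩ := mem_cy.1 hz.1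
    obtain ⟨n, b1, b2, b3⟩ := mem_cy.1 hz.2
    have : z.2.1 = 0 := by simpa using a2.symm
    have h' : z.1 = z.2.1 := by rw [← b1, ← b2]
    ext
    · rw [h', this]; rfl
    · rw [this]; rfl
    · simpa using a3.symm
  constructor
  · intro hk
    obtain ⟨w, hw, hvw, hn⟩ := key v hv
    have hw0 : w ≠ 0 := by
      rintro rfl
      rw [add_zero] at hvw
      have : v ∈ f (cy x 1 0 0) ⊓ f (cy x 1 1 0) := ⟨hv, hvw⟩
      rw [h1g] at this
      exact hv0 (by simpa using this)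
    have hcy : cy x 1 k 0 = cy x 1 0 0 := by
      have : (k : ℤ) • x = (0 : ℤ) • x := by simpa using hk
      unfold cy
      rw [this]
    have h1 := hn k
    rw [hcy] at h1
    have h2 : k • w ∈ f (cy x 1 0 0) ⊓ f (cy x 0 1 0) :=
      ⟨by have := Submodule.sub_mem _ h1 hv; simpa using this, nsmul_mem hw k⟩
    rw [h12] at h2
    have h3 : (k : D) • w = 0 := by
      rw [Nat.cast_smul_eq_nsmul]; simpa using h2
    exact (smul_eq_zero.1 h3).resolve_right hw0
  · intro hk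
    have h1 : f (cy x 1 0 0) ≤ f (cy x 1 k 0) := by
      intro v hv
      obtain ⟨w, hw, hvw, hn⟩ := key v hv
      have h2 := hn k
      have h3 : k • w = 0 := by
        rw [← Nat.cast_smul_eq_nsmul D, hk, zero_smul]
      rwa [h3, add_zero] at h2
    have h2 := (hle _ _).2 h1
    obtain ⟨m, a1, a2, a3⟩ := mem_cy.1 (h2 (show (x, (0 : B), (0 : B)) ∈ cy x 1 0 0 from
      mem_cy.2 ⟨1, by simp⟩))
    have a1' : m • x = x := by simpa using a1
    have a2' : k • (m • x) = 0 := by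
      have : ((m * k : ℤ)) • x = 0 := a2
      rw [mul_comm, mul_smul] at this
      simpa using this
    rw [a1'] at a2'
    exact a2'

end core

end Pool.Agent.Y73.SL
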